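import Pool.Agent.Y140.AW.Stm

/-!
# Points of the cover over a local ring: reductions are different
-/

set_option autoImplicit false

namespace Pool.Agent.Y562.AW

open Polynomial Pool.Agent.Y140.AW

section

variable {K R S : Type} [Field K] [CommRing R] [Algebra K R] [CommRing S] [Algebra K S]

/-- the value `Θ(a, b)` in a commutative algebra -/
noncomputable def eT (Θ : K[X][X]) (a b : R) : R :=
  eval₂ (Polynomial.aeval a : K[X] →ₐ[K] R).toRingHom b Θ

/-- the value of `GG` in a commutative algebra -/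
noncomputable def eG (D : K[X]) (p B : ℕ) {m : ℕ} (ν : Fin m → R) (a : R) : R :=
  a * (aeval a D) ^ p + (a ^ B * aeval a D + 1) ^ p +
    (aeval a D) ^ p * ∑ i : Fin m, ν i * a ^ (p * (i : ℕ))

theorem eT_map (f : R →ₐ[K] S) (Θ : K[X][X]) (a b : R) : f (eT Θ a b) = eT Θ (f a) (f b) := by
  have h1 := Polynomial.hom_eval₂ Θ (Polynomial.aeval a : K[X] →ₐ[K] R).toRingHom f.toRingHom b
  have h2 : f.toRingHom.comp (Polynomial.aeval a : K[X] →ₐ[K] R).toRingHom =
      (Polynomial.aeval (f a) : K[X] →ₐ[K] S).toRingHom := by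
    apply RingHom.ext
    intro q
    exact (Polynomial.aeval_algHom_apply f a q).symm
  rw [h2] at h1
  exact h1

theorem eG_map (f : R →ₐ[K] S) (D : K[X]) (p B : ℕ) {m : ℕ} (ν : Fin m → R) (a : R) :
    f (eG D p B ν a) = eG D p B (fun i => f (ν i)) (f a) := by
  simp only [eG, map_add, map_mul, map_pow, map_one, map_sum, Polynomial.aeval_algHom_apply]

end

section

variable {K N : Type} [Field K] [Field N] [Algebra K N]

theorem tA_eval (Θ : K[X][X]) (a b : N) : (tA Θ a).eval b = eT Θ a b := by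
  rw [tA, eT, eval_map]

theorem tZ_eq (Θ : K[X][X]) (a b : N) : tZ Θ a b = eT (derivative Θ) a b := by
  rw [tZ, tA, derivative_map, eval_map, eT]

theorem GG_eval (D : K[X]) (p B : ℕ) {m : ℕ} (ν : Fin m → N) (a : N) :
    (GG D p B ν).eval a = eG D p B ν a := by
  have h : eval a (D.map (algebraMap K N)) = aeval a D := by
    rw [eval_map, aeval_def]
  simp only [GG, eG, eval_add, eval_mul, eval_pow, eval_X, eval_one, eval_finset_sum, eval_C, h]

end

section

variable {K R k : Type} [Field K] [CommRing R] [IsDomain R] [Algebra K R] [Field k] [Algebra K k]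

theorem sub_dvd_aeval (q : K[X]) (a a' : R) : a - a' ∣ aeval a q - aeval a' q := by
  have h := Polynomial.sub_dvd_eval_sub a a' (q.map (algebraMap K R))
  rwa [eval_map, eval_map, ← aeval_def, ← aeval_def] at h

theorem sub_dvd_eT (Θ : K[X][X]) (a a' b : R) : a - a' ∣ eT Θ a b - eT Θ a' b := by
  rw [eT, eT, eval₂_eq_sum_range, eval₂_eq_sum_range, ← Finset.sum_sub_distrib]
  apply Finset.dvd_sum
  intro i _
  rw [← sub_mul]
  exact Dvd.dvd.mul_right (sub_dvd_aeval (Θ.coeff i) a a') _

/-- Different points have different reductions. -/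
theorem red_inj (p : ℕ) [Fact p.Prime] [CharP R p] (r : R →ₐ[K] k)
    (hr : ∀ y : R, r y ≠ 0 → IsUnit y) (Θ : K[X][X]) (D : K[X]) (B m : ℕ) (ν : Fin m → R)
    (s a b a' b' : R) (h1 : eT Θ a b = 0) (h2 : eT Θ a' b' = 0)
    (h3 : eG D p B ν a = s * (aeval a D * b) ^ p) (h4 : eG D p B ν a' = s * (aeval a' D * b') ^ p)
    (h5 : r a = r a') (h6 : r b = r b') (h7 : eT (derivative Θ) (r a) (r b) ≠ 0)
    (h8 : aeval (r a) D ≠ 0) : a = a' := by
  by_contra hne
  have hΔ : a - a' ≠ 0 := sub_ne_zero.2 hne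
  -- the second coordinates
  obtain ⟨q, hq⟩ := Polynomial.binomExpansion
    (Θ.map (Polynomial.aeval a : K[X] →ₐ[K] R).toRingHom) b' (b - b')
  have e1 : b' + (b - b') = b := by ring
  rw [e1, derivative_map, eval_map, eval_map, eval_map] at hq
  change eT Θ a b = eT Θ a b' + eT (derivative Θ) a b' * (b - b') + q * (b - b') ^ 2 at hq
  have hu : IsUnit (eT (derivative Θ) a b' + q * (b - b')) := by
    apply hr
    rw [map_add, map_mul, map_sub, h6, sub_self, mul_zero, add_zero, eT_map, ← h6]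
    exact h7
  have hd : a - a' ∣ b - b' := by
    have h9 : a - a' ∣ (b - b') * (eT (derivative Θ) a b' + q * (b - b')) := by
      have h10 := sub_dvd_eT Θ a a' b'
      rw [h2, sub_zero] at h10
      have h11 : (b - b') * (eT (derivative Θ) a b' + q * (b - b')) = -eT Θ a b' := by
        rw [h1] at hq
        linear_combination -hq
      rw [h11]
      exact (dvd_neg).2 h10
    exact (hu.dvd_mul_right).1 h9
  obtain ⟨w, hw⟩ := hd
  obtain ⟨δ, hδ⟩ := sub_dvd_aeval D a a'
  obtain ⟨t1, ht1⟩ := sub_dvd_aeval (X ^ B * D) a a'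
  have h12 : ∀ i : Fin m, ∃ t, aeval a (D * X ^ (i : ℕ)) - aeval a' (D * X ^ (i : ℕ)) =
      (a - a') * t := fun i => sub_dvd_aeval (D * X ^ (i : ℕ)) a a'
  choose t2 ht2 using h12
  simp only [map_mul, map_pow, aeval_X] at ht1 ht2
  have hp : p.Prime := Fact.out
  have hp1 : p = (p - 1) + 1 := by
    have := hp.one_lt
    omega
  -- the difference of the two equations
  have g1 : eG D p B ν a - eG D p B ν a' = (a - a') * (aeval a D) ^ p +
      (a - a') ^ p * (a' * δ ^ p + t1 ^ p + ∑ i : Fin m, ν i * t2 i ^ p) := by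
    have k1 : (aeval a D) ^ p - (aeval a' D) ^ p = (a - a') ^ p * δ ^ p := by
      rw [← sub_pow_char, hδ, mul_pow]
    have k2 : (a ^ B * aeval a D + 1) ^ p - (a' ^ B * aeval a' D + 1) ^ p =
        (a - a') ^ p * t1 ^ p := by
      rw [← sub_pow_char, add_sub_add_right_eq_sub, ht1, mul_pow]
    have k3 : ∀ i : Fin m, (aeval a D) ^ p * (ν i * a ^ (p * (i : ℕ))) -
        (aeval a' D) ^ p * (ν i * a' ^ (p * (i : ℕ))) = (a - a') ^ p * (ν i * t2 i ^ p) := by
      intro i
      have k4 : (aeval a D * a ^ (i : ℕ)) ^ p - (aeval a' D * a' ^ (i : ℕ)) ^ p =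
          (a - a') ^ p * t2 i ^ p := by
        rw [← sub_pow_char, ht2 i, mul_pow]
      have k5 : a ^ (p * (i : ℕ)) = (a ^ (i : ℕ)) ^ p := by rw [← pow_mul, mul_comm]
      have k6 : a' ^ (p * (i : ℕ)) = (a' ^ (i : ℕ)) ^ p := by rw [← pow_mul, mul_comm]
      rw [mul_pow, mul_pow] at k4
      rw [k5, k6]
      linear_combination ν i * k4
    have k7 : (aeval a D) ^ p * ∑ i : Fin m, ν i * a ^ (p * (i : ℕ)) -
        (aeval a' D) ^ p * ∑ i : Fin m, ν i * a' ^ (p * (i : ℕ)) =
        (a - a') ^ p * ∑ i : Fin m, ν i * t2 i ^ p := by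
      rw [Finset.mul_sum, Finset.mul_sum, Finset.mul_sum, ← Finset.sum_sub_distrib]
      exact Finset.sum_congr rfl fun i _ => k3 i
    unfold eG
    linear_combination a' * k1 + k2 + k7
  have g2 : s * (aeval a D * b) ^ p - s * (aeval a' D * b') ^ p =
      (a - a') ^ p * (s * (δ * b + aeval a' D * w) ^ p) := by
    have k8 : (aeval a D * b) ^ p - (aeval a' D * b') ^ p =
        (a - a') ^ p * (δ * b + aeval a' D * w) ^ p := by
      rw [← sub_pow_char, ← mul_pow]
      congr 1
      linear_combination b * hδ + aeval a' D * hw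
    linear_combination s * k8
  rw [h3, h4] at g1
  rw [g1] at g2
  -- cancel
  have g3 : (aeval a D) ^ p + (a - a') ^ (p - 1) *
      (a' * δ ^ p + t1 ^ p + ∑ i : Fin m, ν i * t2 i ^ p) =
      (a - a') ^ (p - 1) * (s * (δ * b + aeval a' D * w) ^ p) := by
    apply mul_left_cancel₀ hΔ
    have k9 : (a - a') ^ p = (a - a') * (a - a') ^ (p - 1) := by
      conv_lhs => rw [hp1]
      rw [pow_succ]
      ring
    rw [k9] at g2
    linear_combination g2
  have g4 := congrArg r g3
  have k10 : (r a - r a') ^ (p - 1) = 0 := by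
    rw [h5, sub_self]
    apply zero_pow
    have := hp.one_lt
    omega
  rw [map_add, map_mul, map_mul, map_pow r (a - a'), map_sub, k10, zero_mul, zero_mul, add_zero,
    map_pow, ← Polynomial.aeval_algHom_apply] at g4
  exact h8 (pow_eq_zero_iff hp.ne_zero |>.1 g4)

end

end Pool.Agent.Y562.AW
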