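import Pool.Agent.Y562.AW.Core

/-!
# The norm of the derivative is a square
-/

set_option autoImplicit false

namespace Pool.Agent.Y562.AW

open Polynomial Pool.Agent.Y140.AW

/-- the residue field of a valuation ring of an algebraically closed field is algebraically
closed -/
theorem residue_closed {K : Type} [Field K] [IsAlgClosed K] (V : ValuationSubring K) :
    IsAlgClosed (IsLocalRing.ResidueField V) := by
  apply IsAlgClosed.of_exists_root
  intro q hq hirr
  have hsur : Function.Surjective (IsLocalRing.residue V) := IsLocalRing.residue_surjective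
  obtain ⟨P, hP1, hP2, hP3⟩ := Polynomial.lifts_and_degree_eq_and_monic
    ((Polynomial.mem_lifts _).mpr (Polynomial.map_surjective _ hsur q)) hq
  have hdeg : P.degree ≠ 0 := by
    rw [hP2]
    exact (Polynomial.degree_pos_of_irreducible hirr).ne'
  have hdeg' : (P.map (algebraMap V K)).degree ≠ 0 := by
    rw [Polynomial.degree_map_eq_of_injective (FaithfulSMul.algebraMap_injective V K)]
    exact hdeg
  obtain ⟨z, hz⟩ := IsAlgClosed.exists_root _ hdeg'
  have hint : IsIntegral V z := ⟨P, hP3, by rwa [Polynomial.IsRoot, Polynomial.eval_map] at hz⟩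
  obtain ⟨w, hw⟩ := IsIntegrallyClosed.isIntegral_iff.mp hint
  refine ⟨IsLocalRing.residue V w, ?_⟩
  have h1 : P.eval w = 0 := by
    apply FaithfulSMul.algebraMap_injective V K
    rw [map_zero, ← hz, ← hw, Polynomial.eval_map, Polynomial.eval₂_at_apply]
  rw [← hP1, Polynomial.eval_map, Polynomial.eval₂_at_apply, h1, map_zero]

/-- a valuation ring containing the algebra generated by algebraically independent elements, in
which one of them is not a unit -/
theorem exists_val {K N ι : Type} [Field K] [Field N] [Algebra K N] (η : ι → N)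
    (hη : AlgebraicIndependent K η) (o : ι) :
    ∃ O : ValuationSubring N, (∀ y ∈ Algebra.adjoin K (Set.range η), y ∈ O) ∧
      η o ∈ O.nonunits := by
  let A : Subalgebra K N := Algebra.adjoin K (Set.range η)
  let π : A →ₐ[K] K := (MvPolynomial.aeval (fun _ : ι => (0 : K))).comp
    (hη.aevalEquiv.symm : A →ₐ[K] MvPolynomial ι K)
  let e : A.toSubring →+* A :=
    { toFun := fun y => ⟨y.1, y.2⟩
      map_one' := rfl
      map_mul' := fun _ _ => rfl
      map_zero' := rfl
      map_add' := fun _ _ => rfl }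
  let I : Ideal A.toSubring := RingHom.ker (π.toRingHom.comp e)
  have hI : I ≠ ⊤ := RingHom.ker_ne_top _
  obtain ⟨O, h1, h2⟩ := Ideal.image_subset_nonunits_valuationSubring I hI
  have ho : η o ∈ A := Algebra.subset_adjoin ⟨o, rfl⟩
  refine ⟨O, fun y hy => h1 hy, h2 ⟨⟨η o, ho⟩, ?_, rfl⟩⟩
  show (π.toRingHom.comp e) ⟨η o, ho⟩ = 0
  have h3 : hη.aevalEquiv (MvPolynomial.X o) = (⟨η o, ho⟩ : A) := by
    apply Subtype.ext
    have := hη.algebraMap_aevalEquiv (MvPolynomial.X o)
    rw [MvPolynomial.aeval_X] at this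
    exact this
  have h4 : hη.aevalEquiv.symm (⟨η o, ho⟩ : A) = MvPolynomial.X o := by
    rw [← h3]
    exact hη.aevalEquiv.symm_apply_apply _
  show (MvPolynomial.aeval (fun _ : ι => (0 : K))) (hη.aevalEquiv.symm (⟨η o, ho⟩ : A)) = 0
  rw [h4, MvPolynomial.aeval_X]

theorem t_place (h1 : St_int) (h2 : St_zero) (_h3 : St_res) : St_place := by
  classical
  intro p hp K N _ _ _ _ _ Θ D₀ D d B m hDD hBB hD hB ν s hind x θ hx hpt halg
  obtain ⟨O, hAO, hsO⟩ := exists_val (fun o : Option (Fin m) => o.elim s ν) hind none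
  change s ∈ O.nonunits at hsO
  let A : Subalgebra K N :=
    Algebra.adjoin K (Set.range (fun o : Option (Fin m) => o.elim s ν))
  have hsA : s ∈ A := Algebra.subset_adjoin ⟨none, rfl⟩
  have hνA : ∀ i, ν i ∈ A := fun i => Algebra.subset_adjoin ⟨some i, rfl⟩
  -- integral elements are in the valuation ring
  let inc : A →+* O :=
    { toFun := fun y => ⟨y.1, hAO y.1 y.2⟩
      map_one' := rfl
      map_mul' := fun _ _ => rfl
      map_zero' := rfl
      map_add' := fun _ _ => rfl }
  have hint : ∀ y : N, IsIntegral A y → y ∈ O := by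
    rintro y ⟨g, hg1, hg2⟩
    have h4 : IsIntegral O y := by
      refine ⟨g.map inc, hg1.map inc, ?_⟩
      rw [eval₂_map]
      exact hg2
    obtain ⟨z, hz⟩ := IsIntegrallyClosed.isIntegral_iff.mp h4
    rw [← hz]
    exact z.2
  -- algebra structures
  let ι : K →+* O := inc.comp (algebraMap K A)
  let algO : Algebra K O := ι.toAlgebra
  let f : O →ₐ[K] N :=
    { O.subtype with
      commutes' := fun _ => rfl }
  have hf : Function.Injective f := Subtype.val_injective
  let r : O →ₐ[K] IsLocalRing.ResidueField O := IsScalarTower.toAlgHom K O _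
  have hr0 : ∀ y : O, r y = IsLocalRing.residue O y := fun _ => rfl
  have hr : ∀ y : O, r y ≠ 0 → IsUnit y := by
    intro y hy
    by_contra hu
    exact hy (by rw [hr0, IsLocalRing.residue_eq_zero_iff]; exact hu)
  have : CharP O p := charP_of_injective_algebraMap (algebraMap K O).injective p
  have : IsAlgClosed (IsLocalRing.ResidueField O) := residue_closed O
  have hpts := fun l => h1 p K N Θ D₀ D d B m hDD hBB hD ν s (x l) (θ l) (hpt l) A hsA hνA
  let X' : Fin (d * (p * (B + D.natDegree))) → O := fun l => ⟨x l, hint _ (hpts l).1⟩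
  let T' : Fin (d * (p * (B + D.natDegree))) → O := fun l => ⟨θ l, hint _ (hpts l).2.1⟩
  let s' : O := ⟨s, hAO s hsA⟩
  let ν' : Fin m → O := fun i => ⟨ν i, hAO _ (hνA i)⟩
  have hrs : r s' = 0 := by
    rw [hr0, IsLocalRing.residue_eq_zero_iff]
    exact (O.coe_mem_nonunits_iff (a := s')).1 hsO
  have e1 : ∀ l, eT Θ (X' l) (T' l) = 0 := by
    intro l
    apply hf
    rw [eT_map, map_zero]
    have := (hpt l).1
    rw [tA_eval] at this
    exact this
  have e2 : ∀ l, eG D p B ν' (X' l) = s' * (aeval (X' l) D * T' l) ^ p := by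
    intro l
    apply hf
    rw [eG_map, map_mul, map_pow, map_mul, ← Polynomial.aeval_algHom_apply]
    have := (hpt l).2.2
    rw [GG_eval] at this
    exact this
  obtain ⟨S, hS1, hS2, hS3, hS4⟩ := h2 p K (IsLocalRing.ResidueField O) Θ D₀ D d B m hDD hBB hD hB
    (fun i => r (ν' i))
  have hmem : ∀ l, (r (X' l), r (T' l)) ∈ S := by
    intro l
    refine (hS1 _).2 ⟨?_, ?_⟩
    · show (GG D p B (fun i => r (ν' i))).eval (r (X' l)) = 0
      rw [GG_eval, ← eG_map, e2, map_mul, hrs, zero_mul]
    · show (tA Θ (r (X' l))).eval (r (T' l)) = 0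
      rw [tA_eval, ← eT_map, e1, map_zero]
  have hprod : ∏ z ∈ S, tZ Θ z.1 z.2 ≠ 0 := by
    rw [hS4]
    intro h0
    have h5 : D₀.leadingCoeff ^ (p * B) = 0 := by
      apply (algebraMap K (IsLocalRing.ResidueField O)).injective
      rw [h0, map_zero]
    exact hDD.ne (leadingCoeff_eq_zero.1 (pow_eq_zero_iff
      (Nat.mul_pos hp.out.pos hBB.one).ne' |>.1 h5))
  have htZ : ∀ z ∈ S, tZ Θ z.1 z.2 ≠ 0 := Finset.prod_ne_zero_iff.1 hprod
  have hinj : Function.Injective (fun l => (r (X' l), r (T' l))) := by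
    intro l l' hll
    have h6 : r (X' l) = r (X' l') := congrArg Prod.fst hll
    have h7 : r (T' l) = r (T' l') := congrArg Prod.snd hll
    have h8 := red_inj p r hr Θ D B m ν' s' (X' l) (T' l) (X' l') (T' l') (e1 l) (e1 l') (e2 l)
      (e2 l') h6 h7 (by
        have := htZ _ (hmem l)
        rw [tZ_eq] at this
        exact this) (hS2 _ (hmem l))
    exact hx (congrArg Subtype.val h8)
  have himg : Finset.univ.image (fun l => (r (X' l), r (T' l))) = S := by
    apply Finset.eq_of_subset_of_card_le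
    · intro z hz
      obtain ⟨l, -, rfl⟩ := Finset.mem_image.1 hz
      exact hmem l
    · rw [hS3, Finset.card_image_of_injective _ hinj, Finset.card_univ, Fintype.card_fin]
  let c' : O := ∏ l, eT (derivative Θ) (X' l) (T' l)
  have hfc : f c' = ∏ l, tZ Θ (x l) (θ l) := by
    rw [map_prod]
    refine Finset.prod_congr rfl fun l _ => ?_
    rw [eT_map, tZ_eq]
    rfl
  have hrc : r c' = algebraMap K _ (D₀.leadingCoeff ^ (p * B)) := by
    rw [← hS4, ← himg, Finset.prod_image (fun a _ b _ h => hinj h), map_prod]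
    refine Finset.prod_congr rfl fun l _ => ?_
    rw [eT_map, tZ_eq]
  obtain ⟨b, hb⟩ := hB
  have he : (D₀.leadingCoeff ^ (p * b)) ^ 2 = D₀.leadingCoeff ^ (p * B) := by
    rw [← pow_mul, hb]
    congr 1
    ring
  refine ⟨D₀.leadingCoeff ^ (p * b), ?_⟩
  rw [he]
  by_contra hne
  let y : O := c' - algebraMap K O (D₀.leadingCoeff ^ (p * B))
  have hy0 : r y = 0 := by
    rw [map_sub, hrc, AlgHom.commutes, sub_self]
  have hfy : f y = ∏ l, tZ Θ (x l) (θ l) - algebraMap K N (D₀.leadingCoeff ^ (p * B)) := by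
    rw [map_sub, hfc, AlgHom.commutes]
  have hfy0 : f y ≠ 0 := by
    rw [hfy]
    exact sub_ne_zero.2 hne
  have halg2 : IsAlgebraic K (f y) := by
    rw [hfy]
    exact halg.sub (isAlgebraic_algebraMap _)
  have hin : (f y)⁻¹ ∈ O := by
    apply hint
    exact (isAlgebraic_iff_isIntegral.1 halg2.inv).tower_top
  let z : O := ⟨(f y)⁻¹, hin⟩
  have hyz : y * z = 1 := by
    apply hf
    rw [map_mul, map_one]
    exact mul_inv_cancel₀ hfy0
  have h9 := congrArg r hyz
  rw [map_mul, hy0, zero_mul, map_one] at h9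
  exact zero_ne_one h9

end Pool.Agent.Y562.AW
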